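import Pool.Agent.Lib.MP_667609_co.Final

/-!
For all `n ≥ 1` and `k ≥ n + 1` the series `G k n - G (k + 1) (n - 1)` has nonnegative
coefficients.
-/

namespace Pool.Agent.Results.MP_667609_co.Positivity

open PowerSeries

/-- The finite product `(a; q)_n = ∏_{j < n} (1 - a q ^ j)` of formal power series. -/
noncomputable def poch (a q : ℚ⟦X⟧) (n : ℕ) : ℚ⟦X⟧ := ∏ j ∈ Finset.range n, (1 - a * q ^ j)

/-- `G_{k,n}(q) = (q ^ (2 k - 1); q ^ 2)_n / (q; q ^ 2)_{n + 1}`. -/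
noncomputable def G (k n : ℕ) : ℚ⟦X⟧ :=
  poch (X ^ (2 * k - 1)) (X ^ 2) n * (poch X (X ^ 2) (n + 1))⁻¹

theorem G_eq (k n : ℕ) : G k n = Pool.Agent.Lib.MP_667609_co.G k n := by
  simp only [G, poch, Pool.Agent.Lib.MP_667609_co.G, pow_add, pow_mul, pow_one]

theorem result (k n : ℕ) (hn : 1 ≤ n) (hk : n + 1 ≤ k) (m : ℕ) :
    0 ≤ coeff m (G k n - G (k + 1) (n - 1)) := by
  rw [G_eq, G_eq]
  exact Pool.Agent.Lib.MP_667609_co.G_sub_nonneg Pool.Agent.Lib.MP_667609_co.Vser_NN k n hn hk m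

end Pool.Agent.Results.MP_667609_co.Positivity
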